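import Pool.Agent.H90.PQ.Defs

/-!
# Strong colourings and prime powers: module CLM (helper12)

The functional vanishes at the exchange sum.
-/

set_option autoImplicit false

namespace Pool.Agent.H12.PQ

open MvPolynomial Finset Pool.Agent.H90.PQ

theorem shf_X {V F : Type} [Field F] (h : F) (w : V) :
    shf h (X w : MvPolynomial V F) = X w + C h := by
  simp [shf]

theorem shf_PP {V F : Type} [Field F] (h : F) (l : List (V × V)) :
    shf h (PP F l) = PP F l := by
  rw [PP, map_list_prod, List.map_map]
  congr 1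
  apply List.map_congr_left
  intro e _
  simp only [Function.comp_apply, map_sub, shf_X]
  ring

theorem dg_cons {V : Type} [DecidableEq V] (e : V × V) (l : List (V × V)) (w : V) :
    dg (e :: l) w = ((if w = e.1 then 1 else 0) + (if w = e.2 then 1 else 0)) + dg l w := by
  simp [dg]

theorem PP_cons {V F : Type} [Field F] (e : V × V) (l : List (V × V)) :
    PP F (e :: l) = (X e.1 - X e.2) * PP F l := by
  simp [PP]

theorem degreeOf_PP {V : Type} [DecidableEq V] {F : Type} [Field F] (l : List (V × V)) (w : V) :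
    degreeOf w (PP F l) ≤ dg l w := by
  induction l with
  | nil => simp [PP, dg]
  | cons e l ih =>
    rw [PP_cons, dg_cons]
    refine (degreeOf_mul_le _ _ _).trans (add_le_add ?_ ih)
    refine (degreeOf_sub_le _ _ _).trans ?_
    rw [degreeOf_X, degreeOf_X]
    split_ifs <;> simp

section td

variable {F : Type} [Field F] {ι : Type} {k : ℕ} (c : Fin k → F) (A : Type) [Fintype A]
  [DecidableEq ι] [DecidableEq A] (σ : ι → Equiv.Perm (Fin k))

omit [Fintype A] [DecidableEq A] [DecidableEq ι] in
theorem ev_inl (w : ι × Fin k) : ev c A σ (X (Sum.inl w)) = C (c (σ w.1 w.2)) := by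
  simp [ev]

omit [Fintype A] [DecidableEq A] [DecidableEq ι] in
theorem ev_inr (a : A) : ev c A σ (X (Sum.inr a)) = X a := by
  simp [ev]

theorem td_X (w : VV ι k A) : (ev c A σ (X w)).totalDegree ≤ if w.isRight = true then 1 else 0 := by
  rcases w with w | a
  · rw [ev_inl, totalDegree_C]
    exact Nat.zero_le _
  · rw [ev_inr, totalDegree_X]
    simp

theorem sum_inr (w : VV ι k A) :
    (∑ a : A, if Sum.inr a = w then 1 else 0) = if w.isRight = true then 1 else 0 := by
  rcases w with w | a
  · simp
  · simp only [Sum.inr.injEq, Sum.isRight_inr, if_true]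
    rw [Finset.sum_ite_eq' Finset.univ, if_pos (Finset.mem_univ _)]

theorem td_PP (l : List (VV ι k A × VV ι k A)) :
    (ev c A σ (PP F l)).totalDegree ≤ ∑ a : A, dg l (Sum.inr a) := by
  induction l with
  | nil => simp [PP, dg]
  | cons e l ih =>
    rw [PP_cons, map_mul]
    simp only [dg_cons]
    rw [sum_add_distrib, sum_add_distrib, sum_inr, sum_inr]
    refine (totalDegree_mul _ _).trans (add_le_add ?_ ih)
    rw [map_sub]
    refine (totalDegree_sub _ _).trans (max_le ?_ ?_)
    · exact (td_X c A σ e.1).trans (Nat.le_add_right _ _)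
    · exact (td_X c A σ e.2).trans (Nat.le_add_left _ _)

end td

theorem pf_CLM (h1 : T_IDN) (h2 : T_INV) (h3 : T_SMH) : T_CLM := by
  intro F _ _ _ ι _ _ k c A _ _ m i B u v L hm hi huv hB hdeg haux
  set x : MvPolynomial (VV ι k A) F := X (Sum.inl u) with hx
  set y : MvPolynomial (VV ι k A) F := X (Sum.inl v) with hy
  set Y : MvPolynomial (VV ι k A) F :=
    (1 - x ^ i * y ^ (m - i)) * (∏ j, -X (B j)) * PP F L with hY
  have hsh : ∀ h : F, shf (-h) Y = (1 - (x - C h) ^ i * (y - C h) ^ (m - i)) *
      (∏ j, (C h - X (B j))) * PP F L := by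
    intro h
    rw [hY, map_mul, map_mul, shf_PP, map_sub, map_one, map_mul, map_pow, map_pow, hx, hy,
      shf_X, shf_X, map_prod, C_neg, ← sub_eq_add_neg, ← sub_eq_add_neg]
    congr 2
    refine Finset.prod_congr rfl fun j _ => ?_
    rw [map_neg, shf_X, C_neg]
    ring
  have hid := h1 F (MvPolynomial (VV ι k A) F) m i x y (fun j => X (B j)) hm hi
  have hsum : (∑ I ∈ powersetCard i (univ : Finset (Fin m)),
      (∏ j ∈ I, (x - X (B j))) * ∏ j ∈ univ \ I, (y - X (B j))) * PP F L =
      (m.choose i) • ∑ h : F, shf (-h) Y := by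
    rw [hid, nsmul_eq_mul, mul_assoc, Finset.sum_mul]
    congr 1
    refine Finset.sum_congr rfl fun h _ => ?_
    rw [hsh]
    rfl
  rw [hsum, map_nsmul, map_sum]
  have hYd : ∀ w : ι × Fin k, degreeOf (Sum.inl w) Y ≤ k - 1 := by
    intro w
    refine le_trans ?_ (hdeg w)
    have e1 : degreeOf (Sum.inl w : VV ι k A) (1 - x ^ i * y ^ (m - i)) ≤
        (if w = u then i else 0) + (if w = v then m - i else 0) := by
      refine (degreeOf_sub_le _ _ _).trans (max_le ?_ ?_)
      · rw [degreeOf_one]; exact Nat.zero_le _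
      · refine (degreeOf_mul_le _ _ _).trans (add_le_add ?_ ?_)
        · refine (degreeOf_pow_le _ _ _).trans ?_
          rw [hx, degreeOf_X]
          by_cases h : w = u
          · rw [if_pos (congrArg Sum.inl h), if_pos h, mul_one]
          · rw [if_neg (fun h' => h (Sum.inl.inj h')), mul_zero]
            exact Nat.zero_le _
        · refine (degreeOf_pow_le _ _ _).trans ?_
          rw [hy, degreeOf_X]
          by_cases h : w = v
          · rw [if_pos (congrArg Sum.inl h), if_pos h, mul_one]
          · rw [if_neg (fun h' => h (Sum.inl.inj h')), mul_zero]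
            exact Nat.zero_le _
    have e2 : degreeOf (Sum.inl w : VV ι k A) (∏ j, -X (B j) : MvPolynomial (VV ι k A) F) ≤
        (univ.filter fun j => B j = Sum.inl w).card := by
      rw [card_filter]
      refine (degreeOf_prod_le _ _ _).trans (Finset.sum_le_sum fun j _ => ?_)
      have e3 : (-X (B j) : MvPolynomial (VV ι k A) F) = C (-1) * X (B j) := by
        rw [C_neg, C_1]; ring
      rw [e3]
      refine (degreeOf_C_mul_le _ _ _).trans ?_
      rw [degreeOf_X]
      by_cases h : B j = Sum.inl w
      · rw [if_pos h.symm, if_pos h]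
      · rw [if_neg (fun h' => h h'.symm), if_neg h]
    have e4 := degreeOf_PP (F := F) L (Sum.inl w)
    have e5 := degreeOf_mul_le (Sum.inl w : VV ι k A) ((1 - x ^ i * y ^ (m - i)) * (∏ j, -X (B j)))
      (PP F L)
    have e6 := degreeOf_mul_le (Sum.inl w : VV ι k A) (1 - x ^ i * y ^ (m - i))
      (∏ j, -X (B j))
    rw [hY]
    omega
  have hYt : (DD c A Y).totalDegree + 2 ≤ Fintype.card F := by
    refine le_trans ?_ haux
    gcongr
    rw [DD, LinearMap.sum_apply]
    refine totalDegree_finsetSum_le fun σ _ => ?_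
    rw [LinearMap.smul_apply]
    refine (totalDegree_smul_le _ _).trans ?_
    rw [AlgHom.toLinearMap_apply, hY, map_mul, map_mul]
    refine (totalDegree_mul _ _).trans ?_
    rw [add_comm (∑ a : A, dg L (Sum.inr a))]
    refine add_le_add ?_ (td_PP c A σ L)
    refine (totalDegree_mul _ _).trans ?_
    have e1 : (ev c A σ (1 - x ^ i * y ^ (m - i))).totalDegree = 0 := by
      rw [map_sub, map_one, map_mul, map_pow, map_pow, hx, hy, ev_inl, ev_inl, ← C_pow, ← C_pow,
        ← C_mul, ← C_1, ← C_sub, totalDegree_C]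
    rw [e1, zero_add, map_prod, card_filter]
    refine (totalDegree_finsetProd _ _).trans (Finset.sum_le_sum fun j _ => ?_)
    rw [map_neg, totalDegree_neg]
    exact td_X c A σ (B j)
  have hfin : ∑ h : F, DD c A (shf (-h) Y) = 0 := by
    have e1 : ∀ h : F, DD c A (shf (-h) Y) = shf (-h) (DD c A Y) :=
      fun h => h2 F ι k c A (-h) Y hYd
    rw [Finset.sum_congr rfl fun h _ => e1 h]
    have e2 := h3 F A (DD c A Y) hYt
    rw [← e2]
    exact Fintype.sum_equiv (Equiv.neg F) _ _ (fun h => rfl)
  rw [hfin, smul_zero]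

end Pool.Agent.H12.PQ
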