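import Pool.Agent.H90.PQ.Defs

/-!
# Strong colourings and prime powers: module EXC (helper12)

The exchange.
-/

set_option autoImplicit false

namespace Pool.Agent.H12.PQ

open MvPolynomial Finset Pool.Agent.H90.PQ

/-- The binomial coefficients of `q - 1` are units. -/
theorem choose_cast {F : Type} [Field F] [Fintype F] (m : ℕ) (hm : m + 1 = Fintype.card F) :
    ∀ i : ℕ, i ≤ m → ((m.choose i : ℕ) : F) = (-1) ^ i := by
  obtain ⟨p, hp⟩ := CharP.exists F
  obtain ⟨n, hpp, hn⟩ := FiniteField.card F p
  intro i
  induction i with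
  | zero => intro _; simp
  | succ i ih =>
    intro hi
    have h1 := ih (by omega)
    have h2 : ((m + 1).choose (i + 1) : F) = 0 := by
      rw [hm, hn]
      rw [CharP.cast_eq_zero_iff F p]
      exact Nat.Prime.dvd_choose_pow hpp (by omega) (by rw [← hn, ← hm]; omega)
    rw [Nat.choose_succ_succ, Nat.cast_add, h1] at h2
    rw [pow_succ]
    linear_combination h2

/-- A function on the sets of `i` elements which is invariant under exchanges is constant. -/
theorem exch_const {α β : Type} [DecidableEq α] (f : Finset α → β) (i : ℕ)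
    (h : ∀ (J : Finset α) (a b : α), J.card + 1 = i → a ∉ J → b ∉ J → a ≠ b →
      f (insert a J) = f (insert b J)) :
    ∀ (n : ℕ) (I I₀ : Finset α), (I \ I₀).card = n → I.card = i → I₀.card = i → f I = f I₀ := by
  intro n
  induction n with
  | zero =>
    intro I I₀ h0 h1 h2
    rw [Finset.card_eq_zero, Finset.sdiff_eq_empty_iff_subset] at h0
    rw [Finset.eq_of_subset_of_card_le h0 (by omega)]
  | succ n ih =>
    intro I I₀ h0 h1 h2
    obtain ⟨a, ha⟩ := Finset.card_pos.1 (by omega : 0 < (I \ I₀).card)
    have h3 : (I₀ \ I).card = (I \ I₀).card := by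
      have e1 := Finset.card_sdiff_add_card_inter I I₀
      have e2 := Finset.card_sdiff_add_card_inter I₀ I
      rw [Finset.inter_comm] at e2
      omega
    obtain ⟨b, hb⟩ := Finset.card_pos.1 (by omega : 0 < (I₀ \ I).card)
    rw [Finset.mem_sdiff] at ha hb
    have hab : a ≠ b := by
      rintro rfl
      exact ha.2 hb.1
    have h4 : f I = f (insert b (I.erase a)) := by
      conv_lhs => rw [← Finset.insert_erase ha.1]
      refine h (I.erase a) a b ?_ (Finset.notMem_erase a I) ?_ hab
      · rw [Finset.card_erase_of_mem ha.1]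
        have := Finset.card_pos.2 ⟨a, ha.1⟩
        omega
      · intro hb'
        exact hb.2 (Finset.mem_of_mem_erase hb')
    rw [h4]
    apply ih
    · have h5 : insert b (I.erase a) \ I₀ = (I \ I₀).erase a := by
        ext z
        simp only [Finset.mem_sdiff, Finset.mem_insert, Finset.mem_erase]
        constructor
        · rintro ⟨rfl | ⟨h6, h7⟩, h8⟩
          · exact absurd hb.1 h8
          · exact ⟨h6, h7, h8⟩
        · rintro ⟨h6, h7, h8⟩
          exact ⟨Or.inr ⟨h6, h7⟩, h8⟩
      rw [h5, Finset.card_erase_of_mem (Finset.mem_sdiff.2 ha), h0]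
      rfl
    · rw [Finset.card_insert_of_notMem, Finset.card_erase_of_mem ha.1]
      · have := Finset.card_pos.2 ⟨a, ha.1⟩
        omega
      · intro hb'
        exact hb.2 (Finset.mem_of_mem_erase hb')
    · exact h2

theorem pf_EXC (h1 : T_CLM) : T_EXC := by
  intro F _ _ _ ι _ _ k c A _ _ m i B u v L I₀ hm hI₀ huv hB hdeg haux hne
  by_contra hcon
  push Not at hcon
  have hi : i ≤ m := by
    rw [← hI₀]
    exact (Finset.card_le_univ I₀).trans_eq (Fintype.card_fin m)
  let f : Finset (Fin m) → MvPolynomial A F := fun I =>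
    DD c A ((∏ j ∈ I, (X (Sum.inl u) - X (B j))) * (∏ j ∈ univ \ I, (X (Sum.inl v) - X (B j))) *
      PP F L)
  have hex : ∀ (J : Finset (Fin m)) (a b : Fin m), J.card + 1 = i → a ∉ J → b ∉ J → a ≠ b →
      f (insert a J) = f (insert b J) := by
    intro J a b hJ ha hb hab
    -- the remaining factors
    have hrest : ∀ a' b' : Fin m, a' ∉ J → b' ∉ J → a' ≠ b' →
        (∏ j ∈ univ \ insert a' J, (X (Sum.inl v) - X (B j)) : MvPolynomial (VV ι k A) F) =
          (X (Sum.inl v) - X (B b')) *
            ∏ j ∈ ((univ \ J).erase a').erase b', (X (Sum.inl v) - X (B j)) := by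
      intro a' b' ha' hb' hab'
      have e1 : univ \ insert a' J = (univ \ J).erase a' := by
        ext z
        simp only [Finset.mem_sdiff, Finset.mem_univ, true_and, Finset.mem_insert,
          Finset.mem_erase, not_or]
      rw [e1, ← Finset.mul_prod_erase]
      rw [Finset.mem_erase]
      exact ⟨hab'.symm, Finset.mem_sdiff.2 ⟨Finset.mem_univ _, hb'⟩⟩
    have hsub : f (insert a J) - f (insert b J) =
        DD c A ((X (Sum.inl u) - X (Sum.inl v)) * (X (B a) - X (B b)) *
          (∏ j ∈ J, (X (Sum.inl u) - X (B j))) *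
          (∏ j ∈ (univ \ J).erase a |>.erase b, (X (Sum.inl v) - X (B j))) * PP F L) := by
      simp only [f]
      rw [← map_sub, hrest a b ha hb hab, hrest b a hb ha hab.symm, Finset.prod_insert ha,
        Finset.prod_insert hb, Finset.erase_right_comm (a := b) (b := a)]
      congr 1
      ring
    by_cases hBab : B a = B b
    · rw [hBab] at hsub
      rw [sub_self, mul_zero, zero_mul, zero_mul, zero_mul, map_zero] at hsub
      exact sub_eq_zero.1 hsub
    · rw [hcon J a b hJ ha hb hab hBab] at hsub
      exact sub_eq_zero.1 hsub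
  have hconst : ∀ I ∈ powersetCard i (univ : Finset (Fin m)), f I = f I₀ := by
    intro I hI
    exact exch_const f i hex _ I I₀ rfl (Finset.mem_powersetCard.1 hI).2 hI₀
  have h2 := h1 F ι k c A m i B u v L hm hi huv hB hdeg haux
  rw [Finset.sum_mul, map_sum] at h2
  have h3 : ∑ I ∈ powersetCard i (univ : Finset (Fin m)), f I = 0 := h2
  rw [Finset.sum_congr rfl hconst, Finset.sum_const, Finset.card_powersetCard, Finset.card_univ,
    Fintype.card_fin, ← Nat.cast_smul_eq_nsmul F, choose_cast m hm i hi, smul_eq_zero] at h3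
  rcases h3 with h3 | h3
  · exact pow_ne_zero _ (neg_ne_zero.2 one_ne_zero) h3
  · exact hne h3

end Pool.Agent.H12.PQ
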